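import Pool.Agent.X324.PA.Abu
import Pool.Agent.Y191.Disc

/-!
Abundance for pairs which are generically finite over a product of projective spaces.
-/

set_option autoImplicit false
set_option linter.overlappingInstances false
set_option linter.unusedSectionVars false

open FF IntermediateField Pool.Agent.W603.LV Pool.Agent.W602.GT Pool.Agent.W602.Cov
open Pool.Agent.W602.Cov.G Pool.Agent.TH152.AC Pool.Agent.W619.PQ
open Pool.Agent.TH122.AB Pool.Agent.TH756.AR Pool.Agent.TH756.PR Pool.Agent.TH756.PN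
open MvPolynomial Module

namespace Pool.Agent.X324.PA

section

variable {r : ℕ} {n q : Fin r → ℕ} {ℓ : ∀ i, Fin (q i) → Form (n i)} {K : Type} [Field K]
  [Algebra ℂ K] {x : ∀ i, Fin (n i + 1) → K}

open Pool.Agent.Y172 Pool.Agent.Y191 in
/-- **Abundance for pairs.** -/
theorem abundance_pair {M N : ℕ} (hr : 1 ≤ r) (hn : ∀ i, 1 ≤ n i) (hN : N = ∑ i, n i)
    {y : Fin (M + 1) → K} (hy : NormalModel y) (htr : Algebra.trdeg ℂ K = N)
    {Δ : Place ℂ K → ℚ} (hΔ : Effective y Δ)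
    (hℓ : ∀ i k, ℓ i k ≠ 0) (g : ∀ i, (Fin (q i) → ℕ) → ℚ) (hg : ∀ i, Wtd (ℓ i) (g i))
    (I : Finset (Fin r)) (k0 : ∀ i, Fin (q i)) (w : ∀ i, Fin (q i) → ℚ)
    (hw0 : ∀ i, i ∉ I → ∀ k, 0 ≤ w i k) (hw1 : ∀ i, i ∉ I → ∑ k, w i k = (n i : ℚ) + 1)
    (F : Finset (MvPolynomial ((i : Fin r) × Fin (n i)) ℂ)) (hF0 : ∀ f ∈ F, f ≠ 0)
    (hF : ∀ f ∈ F, ∀ i, i ∉ I → degI i f = 0)
    (hx0 : ∀ i, x i 0 ≠ 0) (hbas : IsTranscendenceBasis ℂ (aff x))
    (hlow : ∀ P, IsPrimeDivisor y P → ∀ (a : Fin r → ℤ) (v : ∀ i, Fin (q i) → ℕ), Nrm ℓ x P a v →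
      (∃ i, v i ≠ 0) → 1 - Δ P ≤ ∑ i, g i (v i) ∧
        ((∃ i ∈ I, v i (k0 i) ≠ 0) → 1 - Δ P < ∑ i, g i (v i)))
    (hup : ∀ P, (∃ m, LiesOver x P m) → ∃ α : ℚ, 0 ≤ α ∧ LogDisc y N Δ P α ∧
      ∀ m, LiesOver x P m → ∀ (a : Fin r → ℤ) (v : ∀ i, Fin (q i) → ℕ), Nrm ℓ x P a v →
      ((∀ i, v i = 0) → (∀ f ∈ F, P.ord (aeval (aff x) f) = 0) → m = 1 ∧ 1 ≤ α) ∧
        ∀ i, i ∉ I → v i ≠ 0 → (m : ℚ) ≤ α + ∑ k, w i k * v i k) :
    kodairaDim y N Δ = ((∑ i ∈ I, n i : ℕ) : WithBot ℕ) ∧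
      ∀ A, Effective y A → Integral y A → numericalDim y N Δ A = ((∑ i ∈ I, n i : ℕ) : EReal) := by
  classical
  have hess := hy.ess
  let e : ((i : Fin r) × Fin (n i)) ≃ Fin N := finSigmaFinEquiv.trans (finCongr hN.symm)
  have hbas' : IsTranscendenceBasis ℂ (uu e x) := basis_uu e hbas
  have hrange : Set.range (uu e x) = Set.range (aff x) := by
    ext z
    constructor
    · rintro ⟨b, rfl⟩
      exact ⟨e.symm b, rfl⟩
    · rintro ⟨a, rfl⟩
      refine ⟨e a, ?_⟩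
      change aff x (e.symm (e a)) = _
      rw [e.symm_apply_apply]
  have hfd : FiniteDimensional (IntermediateField.adjoin ℂ (Set.range (aff x))) K := by
    rw [← hrange]
    exact fd_basis hbas'
  obtain ⟨T, hT, ω, hω, E, hE, hind⟩ := ko_main hr hn hN hℓ g hg I k0 hx0 hbas {P | IsPrimeDivisor y P}
    (fun f hf => finite_ord hy hf) (fun P => (Δ P : ℝ))
    (fun P hP => by exact_mod_cast hΔ.1 P hP) (fun P hP _ a v hv h0 => by
      obtain ⟨h1, h2⟩ := hlow P hP a v hv h0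
      refine ⟨?_, fun h => ?_⟩
      · exact_mod_cast h1
      · exact_mod_cast h2 h)
  obtain ⟨D, hD⟩ := exists_frameB (uu e x) hbas'
  -- the log discrepancies
  choose! α hα0 hαd hα using hup
  have hnu := nu_main hr hn hN hℓ I w hw0 hw1 F hF0 hF hx0 hbas hfd {P | ∃ m, LiesOver x P m}
    (fun _ m hm => ⟨m, hm⟩) (fun P => 1 - (α P : ℝ))
    (fun P hP => by
      have := hα0 P hP
      have : (0 : ℝ) ≤ α P := by exact_mod_cast this
      linarith) (fun P m hm a v hv => by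
      obtain ⟨h1, h2⟩ := hα P ⟨m, hm⟩ m hm a v hv
      refine ⟨fun h3 h4 => ?_, fun i hi hv0 => ?_⟩
      · obtain ⟨h5, h6⟩ := h1 h3 h4
        refine ⟨h5, ?_⟩
        have : (1 : ℝ) ≤ α P := by exact_mod_cast h6
        linarith
      · have h5 := h2 i hi hv0
        have h6 : (m : ℝ) ≤ α P + ((∑ k, w i k * v i k : ℚ) : ℝ) := by exact_mod_cast h5
        linarith)
  have hupper : ∀ A, Effective y A → ∃ C : ℕ, ∀ m : ℕ, 1 ≤ m → ∀ (r' : ℕ) (f : Fin r' → K),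
      LinearIndependent ℂ f → (∀ i, ∃ ω,
        Pool.Agent.Y172.IsSection y N m (m • Δ + A) ω ∧ ω D = f i) →
      r' ≤ C * m ^ (∑ i ∈ I, n i) := by
    intro A hA
    choose s hs hs0 hb using fun j => disc_bound (n := N) (Δ := Δ) hy hA hD j
    obtain ⟨C, hC⟩ := hnu (Finset.univ.image fun j => (s j)⁻¹)
    refine ⟨C, fun m hm r' f hf hsec => hC m r' hm ?_⟩
    choose ω' hω' hωf using hsec
    refine ⟨ω', ?_, fun l => ⟨(hω' l).1, fun P hPV hP E' hE' => ?_⟩⟩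
    · have h1 : f = fun i => ω' i D := funext fun i => (hωf i).symm
      rw [h1] at hf
      refine LinearIndependent.of_comp (LinearMap.proj D : ((Fin N → Derivation ℂ K K) → K) →ₗ[ℂ] K) ?_
      exact hf
    · obtain ⟨j, hj⟩ := exists_centred hy P
      rcases hb j P hj (α P) (hαd P hPV) m hm (ω' l) (hω' l) E' hE' with h3 | h3
      · exact Or.inl h3
      · right
        refine ⟨(s j)⁻¹, Finset.mem_image_of_mem _ (Finset.mem_univ j), inv_ne_zero (hs0 j), ?_⟩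
        have h5 : P.ord (s j)⁻¹ = - P.ord (s j) := P.ord_inv _
        have h6 : (m : ℝ) * ((α P : ℝ) - 1) - (P.ord (s j) : ℝ) ≤ (P.ord (ω' l E') : ℝ) := by
          exact_mod_cast h3
        rw [h5]
        push_cast
        linarith
  refine dims hΔ hD hupper hT (ω := ω) (fun j => ⟨(hω j).1, fun P hP G hG => ?_⟩) hE hind
  rcases (hω j).2 P hP (hP.divisorial hy htr) G hG with h6 | h6
  · exact Or.inl h6
  · right
    have h7 : -(((T • Δ) P : ℚ) : ℝ) ≤ ((P.ord (ω j G) : ℤ) : ℝ) := by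
      simpa using h6
    exact_mod_cast h7

end

end Pool.Agent.X324.PA
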