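import Pool.Agent.X324.PA.Nu
import Pool.Agent.Y191.LcRam

/-!
Abundance for varieties with canonical singularities which are generically finite over a product of
projective spaces.
-/

set_option autoImplicit false
set_option linter.overlappingInstances false
set_option linter.unusedSectionVars false

open FF IntermediateField Pool.Agent.W603.LV Pool.Agent.W602.GT Pool.Agent.W602.Cov
open Pool.Agent.W602.Cov.G Pool.Agent.TH152.AC Pool.Agent.W619.PQ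
open Pool.Agent.TH122.AB Pool.Agent.TH756.AR Pool.Agent.TH756.PR Pool.Agent.TH756.PN
open MvPolynomial Module

namespace Pool.Agent.X324.PA

section

variable {r : ℕ} {n q : Fin r → ℕ} {ℓ : ∀ i, Fin (q i) → Form (n i)} {K : Type} [Field K]
  [Algebra ℂ K] {x : ∀ i, Fin (n i + 1) → K}

/-- a frame from a transcendence basis -/
theorem exists_frameB {N : ℕ} (σ : Fin N → K) (hσ : IsTranscendenceBasis ℂ σ) :
    ∃ D : Fin N → Derivation ℂ K K, Pool.Agent.Y172.IsFrame D := by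
  classical
  have h1 : ∀ l : Fin N, ∃ D : Derivation ℂ K K, ∀ m, D (σ m) = if m = l then 1 else 0 :=
    fun l => exists_der σ hσ _
  choose δ hδ using h1
  refine ⟨δ, fun E => ⟨fun l => E (σ l), ?_⟩⟩
  apply der_ext σ hσ
  intro m
  have h0 : ∀ (t : Finset (Fin N)) (c : Fin N → K) (z : K),
      (∑ l ∈ t, c l • δ l) z = ∑ l ∈ t, c l * δ l z := by
    intro t c z
    induction t using Finset.induction_on with
    | empty => simp
    | insert l t hl ih =>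
      rw [Finset.sum_insert hl, Finset.sum_insert hl, Derivation.add_apply, ih]
      rfl
  rw [h0, Finset.sum_eq_single m]
  · rw [hδ, if_pos rfl, mul_one]
  · intro l _ hl
    rw [hδ, if_neg (Ne.symm hl), mul_zero]
  · intro h
    exact absurd (Finset.mem_univ _) h

/-- **The Kodaira dimension.** -/
theorem ko_main {N : ℕ} (hr : 1 ≤ r) (hn : ∀ i, 1 ≤ n i) (hN : N = ∑ i, n i)
    (hℓ : ∀ i k, ℓ i k ≠ 0) (g : ∀ i, (Fin (q i) → ℕ) → ℚ) (hg : ∀ i, Wtd (ℓ i) (g i))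
    (I : Finset (Fin r)) (k0 : ∀ i, Fin (q i))
    (hx0 : ∀ i, x i 0 ≠ 0) (hbas : IsTranscendenceBasis ℂ (aff x))
    (V : Set (Place ℂ K)) (hV : ∀ f : K, f ≠ 0 → {P ∈ V | P.ord f ≠ 0}.Finite)
    (δ : Place ℂ K → ℝ) (hδ0 : ∀ P ∈ V, 0 ≤ δ P)
    (hlow : ∀ P ∈ V, Divisorial N P → ∀ (a : Fin r → ℤ) (v : ∀ i, Fin (q i) → ℕ), Nrm ℓ x P a v →
      (∃ i, v i ≠ 0) → 1 - δ P ≤ ((∑ i, g i (v i) : ℚ) : ℝ) ∧
        ((∃ i ∈ I, v i (k0 i) ≠ 0) → 1 - δ P < ((∑ i, g i (v i) : ℚ) : ℝ))) :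
    KodP K N V δ (∑ i ∈ I, n i) := by
  classical
  obtain ⟨N', rfl⟩ : ∃ N', N = N' + 1 := by
    have h1 : n ⟨0, hr⟩ ≤ ∑ i, n i :=
      Finset.single_le_sum (f := n) (fun _ _ => Nat.zero_le _) (Finset.mem_univ _)
    have h2 := hn ⟨0, hr⟩
    exact ⟨N - 1, by omega⟩
  let e : ((i : Fin r) × Fin (n i)) ≃ Fin (N' + 1) :=
    finSigmaFinEquiv.trans (finCongr hN.symm)
  have hspan : ∀ i, Submodule.span ℂ (Set.range (ℓ i)) = ⊤ := fun i => (hg i).span
  have hlx : ∀ i k, lf (ℓ i k) (x i) ≠ 0 := fun i k => lfs_ne hx0 hbas i (hℓ i k)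
  have hbas' : IsTranscendenceBasis ℂ (uu e x) := basis_uu e hbas
  choose p hp0 hp using hg
  have hcard := card_free e I
  obtain ⟨s, hs⟩ : ∃ s : Finset (Fin (N' + 1)), s = Finset.univ.filter
    fun b : Fin (N' + 1) => ∀ t : {i : Fin r // i ∉ I}, b ∉ bk e t.1 := ⟨_, rfl⟩
  rw [← hs] at hcard
  refine kodGeP e hspan p hp0 g hp hlx hx0 hbas' V hV δ hδ0 I k0
    (fun P hPV hPd a v hord hsp hv0 => hlow P hPV hPd a v (nrm hspan hlx hord hsp) hv0)
    (∑ i ∈ I, n i) (s.orderEmbOfFin hcard) (s.orderEmbOfFin hcard).injective fun b => ?_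
  have hb : s.orderEmbOfFin hcard b ∈ s := Finset.orderEmbOfFin_mem s hcard b
  obtain ⟨c, hc⟩ : ∃ c, c = s.orderEmbOfFin hcard b := ⟨_, rfl⟩
  rw [← hc] at hb ⊢
  rw [hs, Finset.mem_filter] at hb
  by_contra hcon
  exact hb.2 ⟨_, hcon⟩ ((mem_bk e).2 rfl)

open Pool.Agent.Y172 Pool.Agent.Y191 in
/-- **Abundance.** -/
theorem abundance {M N : ℕ} (hr : 1 ≤ r) (hn : ∀ i, 1 ≤ n i) (hN : N = ∑ i, n i)
    {y : Fin (M + 1) → K} (hy : NormalModel y) (htr : Algebra.trdeg ℂ K = N)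
    (hcan : Canonical y N)
    (hℓ : ∀ i k, ℓ i k ≠ 0) (g : ∀ i, (Fin (q i) → ℕ) → ℚ) (hg : ∀ i, Wtd (ℓ i) (g i))
    (I : Finset (Fin r)) (k0 : ∀ i, Fin (q i)) (w : ∀ i, Fin (q i) → ℚ)
    (hw0 : ∀ i, i ∉ I → ∀ k, 0 ≤ w i k) (hw1 : ∀ i, i ∉ I → ∑ k, w i k = (n i : ℚ) + 1)
    (F : Finset (MvPolynomial ((i : Fin r) × Fin (n i)) ℂ)) (hF0 : ∀ f ∈ F, f ≠ 0)
    (hF : ∀ f ∈ F, ∀ i, i ∉ I → degI i f = 0)
    (hx0 : ∀ i, x i 0 ≠ 0) (hbas : IsTranscendenceBasis ℂ (aff x))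
    (hlow : ∀ P, IsPrimeDivisor y P → ∀ (a : Fin r → ℤ) (v : ∀ i, Fin (q i) → ℕ), Nrm ℓ x P a v →
      (∃ i, v i ≠ 0) → 1 ≤ ∑ i, g i (v i) ∧ ((∃ i ∈ I, v i (k0 i) ≠ 0) → 1 < ∑ i, g i (v i)))
    (hup : ∀ P m, LiesOver x P m → ∀ (a : Fin r → ℤ) (v : ∀ i, Fin (q i) → ℕ), Nrm ℓ x P a v →
      ((∀ i, v i = 0) → (∀ f ∈ F, P.ord (aeval (aff x) f) = 0) → m = 1) ∧
        ∀ i, i ∉ I → v i ≠ 0 → (m : ℚ) ≤ 1 + ∑ k, w i k * v i k) :
    kodairaDim y N 0 = ((∑ i ∈ I, n i : ℕ) : WithBot ℕ) ∧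
      ∀ A, Effective y A → Integral y A → numericalDim y N 0 A = ((∑ i ∈ I, n i : ℕ) : EReal) := by
  classical
  have hess := hy.ess
  have hΔ : Effective y (0 : Place ℂ K → ℚ) := ⟨fun _ _ => le_rfl, by simp⟩
  let e : ((i : Fin r) × Fin (n i)) ≃ Fin N := finSigmaFinEquiv.trans (finCongr hN.symm)
  have hbas' : IsTranscendenceBasis ℂ (uu e x) := basis_uu e hbas
  have hrange : Set.range (uu e x) = Set.range (aff x) := by
    ext z
    constructor
    · rintro ⟨b, rfl⟩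
      exact ⟨e.symm b, rfl⟩
    · rintro ⟨a, rfl⟩
      refine ⟨e a, ?_⟩
      change aff x (e.symm (e a)) = _
      rw [e.symm_apply_apply]
  have hfd : FiniteDimensional (IntermediateField.adjoin ℂ (Set.range (aff x))) K := by
    rw [← hrange]
    exact fd_basis hbas'
  obtain ⟨T, hT, ω, hω, E, hE, hind⟩ := ko_main hr hn hN hℓ g hg I k0 hx0 hbas {P | IsPrimeDivisor y P}
    (fun f hf => finite_ord hy hf) (fun _ => 0) (fun _ _ => le_rfl) (fun P hP _ a v hv h0 => by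
      obtain ⟨h1, h2⟩ := hlow P hP a v hv h0
      refine ⟨?_, fun h => ?_⟩
      · rw [sub_zero]
        exact_mod_cast h1
      · rw [sub_zero]
        exact_mod_cast h2 h)
  obtain ⟨D, hD⟩ := exists_frameB (uu e x) hbas'
  have hnu := nu_main hr hn hN hℓ I w hw0 hw1 F hF0 hF hx0 hbas hfd Set.univ
    (fun _ _ _ => Set.mem_univ _) (fun _ => 0) (fun _ _ => zero_le_one) (fun P m hm a v hv => by
      obtain ⟨h1, h2⟩ := hup P m hm a v hv
      refine ⟨fun h3 h4 => ⟨h1 h3 h4, le_rfl⟩, fun i hi hv0 => ?_⟩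
      have h5 := h2 i hi hv0
      have h6 : (m : ℝ) ≤ 1 + ((∑ k, w i k * v i k : ℚ) : ℝ) := by exact_mod_cast h5
      linarith)
  have hupper : ∀ A, Effective y A → ∃ C : ℕ, ∀ m : ℕ, 1 ≤ m → ∀ (r' : ℕ) (f : Fin r' → K),
      LinearIndependent ℂ f → (∀ i, ∃ ω,
        Pool.Agent.Y172.IsSection y N m (m • (0 : Place ℂ K → ℚ) + A) ω ∧ ω D = f i) →
      r' ≤ C * m ^ (∑ i ∈ I, n i) := by
    intro A hA
    choose s hs hs0 hb using fun j => can_bound (n := N) hy hcan hA hD j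
    obtain ⟨C, hC⟩ := hnu (Finset.univ.image fun j => (s j)⁻¹)
    refine ⟨C, fun m hm r' f hf hsec => hC m r' hm ?_⟩
    choose ω' hω' hωf using hsec
    refine ⟨ω', ?_, fun l => ⟨(hω' l).1, fun P _ hP E' hE' => ?_⟩⟩
    · have h1 : f = fun i => ω' i D := funext fun i => (hωf i).symm
      rw [h1] at hf
      refine LinearIndependent.of_comp (LinearMap.proj D : ((Fin N → Derivation ℂ K K) → K) →ₗ[ℂ] K) ?_
      exact hf
    · obtain ⟨j, hj⟩ := exists_centred hy P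
      have h2 := hω' l
      rw [smul_zero, zero_add] at h2
      rcases hb j P hP hj m hm (ω' l) h2 E' hE' with h3 | h3
      · exact Or.inl h3
      · right
        refine ⟨(s j)⁻¹, Finset.mem_image_of_mem _ (Finset.mem_univ j), inv_ne_zero (hs0 j), ?_⟩
        have h4 : (-(P.ord (s j)) : ℤ) ≤ P.ord (ω' l E') := by exact_mod_cast h3
        have h5 : P.ord (s j)⁻¹ = - P.ord (s j) := P.ord_inv _
        rw [h5, mul_zero, sub_zero]
        exact_mod_cast h4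
  refine dims hΔ hD hupper hT (ω := ω) (fun j => ⟨(hω j).1, fun P hP G hG => ?_⟩) hE hind
  rcases (hω j).2 P hP (hP.divisorial hy htr) G hG with h6 | h6
  · exact Or.inl h6
  · right
    simp only [mul_zero, neg_zero] at h6
    simp only [Pi.smul_apply, Pi.zero_apply, smul_zero, neg_zero]
    exact_mod_cast h6

end

end Pool.Agent.X324.PA
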