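import Pool.Agent.TH756.PN.FinW

/-!
The numerical dimension for covers of a product of projective spaces: the second part of
`Pool.Agent.TH756.PN.pairs_main` without the hypotheses of the first part, and conversely.
-/

set_option autoImplicit false
set_option linter.overlappingInstances false
set_option linter.unusedSectionVars false

open FF IntermediateField Pool.Agent.W603.LV Pool.Agent.W602.GT Pool.Agent.W602.Cov
open Pool.Agent.W602.Cov.G Pool.Agent.TH152.AC Pool.Agent.W619.PQ
open Pool.Agent.TH122.AB Pool.Agent.TH756.AR Pool.Agent.TH756.PR Pool.Agent.TH756.PN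
open MvPolynomial Module

namespace Pool.Agent.X324.PA

section

variable {r : ℕ} {n q : Fin r → ℕ} {ℓ : ∀ i, Fin (q i) → Form (n i)} {K : Type} [Field K]
  [Algebra ℂ K] {x : ∀ i, Fin (n i + 1) → K}

/-- **The numerical dimension.** -/
theorem nu_main {N : ℕ} (hr : 1 ≤ r) (hn : ∀ i, 1 ≤ n i) (hN : N = ∑ i, n i)
    (hℓ : ∀ i k, ℓ i k ≠ 0)
    (I : Finset (Fin r)) (w : ∀ i, Fin (q i) → ℚ)
    (hw0 : ∀ i, i ∉ I → ∀ k, 0 ≤ w i k) (hw1 : ∀ i, i ∉ I → ∑ k, w i k = (n i : ℚ) + 1)
    (F : Finset (MvPolynomial ((i : Fin r) × Fin (n i)) ℂ)) (hF0 : ∀ f ∈ F, f ≠ 0)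
    (hF : ∀ f ∈ F, ∀ i, i ∉ I → degI i f = 0)
    (hx0 : ∀ i, x i 0 ≠ 0) (hbas : IsTranscendenceBasis ℂ (aff x))
    (hfd : FiniteDimensional (IntermediateField.adjoin ℂ (Set.range (aff x))) K)
    (V : Set (Place ℂ K)) 
    (hVL : ∀ P m, LiesOver x P m → P ∈ V) (δ : Place ℂ K → ℝ) 
    (hδ1 : ∀ P ∈ V, δ P ≤ 1)
    (hup : ∀ P m, LiesOver x P m → ∀ (a : Fin r → ℤ) (v : ∀ i, Fin (q i) → ℕ), Nrm ℓ x P a v →
      ((∀ i, v i = 0) → (∀ f ∈ F, P.ord (aeval (aff x) f) = 0) → m = 1 ∧ δ P ≤ 0) ∧
        ∀ i, i ∉ I → v i ≠ 0 → (m : ℝ) - ((∑ k, w i k * v i k : ℚ) : ℝ) ≤ 1 - δ P) :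
    NumLeP ℂ K N V δ (∑ i ∈ I, n i) := by
  classical
  obtain ⟨N', rfl⟩ : ∃ N', N = N' + 1 := by
    have h1 : n ⟨0, hr⟩ ≤ ∑ i, n i :=
      Finset.single_le_sum (f := n) (fun _ _ => Nat.zero_le _) (Finset.mem_univ _)
    have h2 := hn ⟨0, hr⟩
    exact ⟨N - 1, by omega⟩
  let e : ((i : Fin r) × Fin (n i)) ≃ Fin (N' + 1) :=
    finSigmaFinEquiv.trans (finCongr hN.symm)
  have hlx : ∀ i k, lf (ℓ i k) (x i) ≠ 0 := fun i k => lfs_ne hx0 hbas i (hℓ i k)
  have hbas' : IsTranscendenceBasis ℂ (uu e x) := basis_uu e hbas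
  have hrange : Set.range (uu e x) = Set.range (aff x) := by
    ext z
    constructor
    · rintro ⟨b, rfl⟩
      exact ⟨e.symm b, rfl⟩
    · rintro ⟨a, rfl⟩
      refine ⟨e a, ?_⟩
      change aff x (e.symm (e a)) = _
      rw [e.symm_apply_apply]
  have hae : ∀ f : MvPolynomial (Fin (N' + 1)) ℂ,
      aeval (aff x) (rename e.symm f) = aeval (uu e x) f := by
    intro f
    rw [aeval_rename]
    rfl
  have hren : ∀ f : MvPolynomial ((i : Fin r) × Fin (n i)) ℂ, rename e.symm (rename e f) = f := by
    intro f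
    rw [rename_rename]
    have : (e.symm ∘ e : ((i : Fin r) × Fin (n i)) → _) = id := by
      funext a
      simp
    rw [this, rename_id_apply]
  have hren0 : ∀ f : MvPolynomial (Fin (N' + 1)) ℂ, f ≠ 0 → rename e.symm f ≠ 0 := by
    intro f hf h0
    exact hf (rename_injective _ e.symm.injective (by rw [h0, map_zero]))
  have hdvd : ∀ f g : MvPolynomial (Fin (N' + 1)) ℂ, rename e.symm f ∣ rename e.symm g ↔ f ∣ g := by
    intro f g
    exact map_dvd_iff (renameEquiv ℂ e.symm)
  have hlift : ∀ i (ψ : Form (n i)), ψ ≠ 0 → lift e i ψ ≠ 0 := by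
    intro i ψ hψ h0
    apply hψ
    apply lift_inj e
    rw [h0]
    ext z
    simp [lift_apply]
  have hval : ∀ (P : Place ℂ K) i (φ : Form (n i)), φ ≠ 0 →
      P.ord (lf φ (x i)) = P.ord (aeval (uu e x) (lp (lift e i φ))) + P.ord (x i 0) := by
    intro P i φ hφ
    have h1 := aeval_lift e hx0 i φ
    have h2 : lf φ (x i) ≠ 0 := lfs_ne hx0 hbas i hφ
    rw [h1, P.ord_div h2 (hx0 i)]
    ring
  have hlf0 : ∀ i, lf (0 : Form (n i)) (x i) = 0 := fun i => by simp [lf]
  have hproj : ∀ i, lf (LinearMap.proj 0 : Form (n i)) (x i) = x i 0 := fun i => Pool.Agent.W168.CG.PGR.lf_proj _ _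
  have hproj0 : ∀ i, (LinearMap.proj 0 : Form (n i)) ≠ 0 := by
    intro i h0
    have := hproj i
    rw [h0, hlf0] at this
    exact hx0 i this.symm
  refine nuW e hn hℓ hbas' (by rw [hrange]; exact hfd) I
    (fun i k => if i ∈ I then 0 else (w i k : ℝ)) (fun i k => ?_) (fun i hi => ?_)
    (fun b : F => rename e b.1) (fun b h0 => hF0 b.1 b.2 (rename_injective _ e.injective
      (by rw [h0, map_zero]))) (fun b i hi => ?_) V δ hδ1 ?_ ?_
  · split_ifs with h
    · exact le_rfl
    · exact_mod_cast hw0 i h k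
  · simp only [if_neg hi]
    have := hw1 i hi
    exact_mod_cast this
  · rw [← degI_rename, hren]
    exact hF b.1 b.2 i hi
  · -- the places of the irreducible polynomials
    intro p hp P hP
    obtain ⟨m, hm⟩ : ∃ m : ℕ, P.ord (aeval (uu e x) p) = m :=
      ⟨(P.ord (aeval (uu e x) p)).toNat, by have := (hP p hp.ne_zero).1; omega⟩
    have hm0 : m ≠ 0 := by
      rintro rfl
      exact (hP p hp.ne_zero).2.1 hm (dvd_refl p)
    have hlo : LiesOver x P m := by
      left
      refine ⟨rename e.symm p, ?_, by rw [hae]; exact hm, fun f hf => ?_⟩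
      · exact (MulEquiv.irreducible_iff (renameEquiv ℂ e.symm)).2 hp
      · rw [← hren f, hae, hdvd]
        refine hP _ fun h0 => hf ?_
        rw [← hren f, h0, map_zero]
    have hPV := hVL P m hlo
    have hordp : ∀ i (φ : Form (n i)), φ ≠ 0 → p ∣ lp (lift e i φ) →
        P.ord (aeval (uu e x) (lp (lift e i φ))) = m := by
      intro i φ hφ hd
      obtain ⟨c, hc, h1⟩ := dvd_lp hp (hlift i φ hφ) hd
      have hp0 : aeval (uu e x) p ≠ 0 := by
        intro h0
        rw [h0, P.ord_zero] at hm
        exact hm0 (by exact_mod_cast hm.symm)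
      have hc0 : algebraMap ℂ K c ≠ 0 := by
        rw [Ne, map_eq_zero]
        exact hc
      rw [h1, map_mul, aeval_C, P.ord_mul hc0 hp0, P.ord_const hc, hm, zero_add]
    have hnrm : Nrm ℓ x P (fun i => P.ord (x i 0))
        fun i k => if p ∣ lp (lift e i (ℓ i k)) then m else 0 := by
      refine ⟨fun i φ => ?_, fun i => ⟨LinearMap.proj 0, ?_, ?_⟩, fun i k => ?_⟩
      · by_cases hφ : φ = 0
        · left
          rw [hφ, hlf0]
        · right
          rw [hval P i φ hφ]
          have := (hP _ (lp_ne (hlift i φ hφ))).1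
          linarith
      · rw [hproj]
        exact hx0 i
      · rw [hproj]
      · rw [hval P i _ (hℓ i k)]
        dsimp only
        by_cases hd : p ∣ lp (lift e i (ℓ i k))
        · rw [if_pos hd, hordp i _ (hℓ i k) hd]
          ring
        · rw [if_neg hd, (hP _ (lp_ne (hlift i _ (hℓ i k)))).2.2 hd]
          simp
    obtain ⟨hu1, hu2⟩ := hup P m hlo _ _ hnrm
    refine ⟨hPV, fun hno hnoF => ?_, fun i hi hex => ?_⟩
    · obtain ⟨h1, h2⟩ := hu1 (fun i => by
        funext k
        exact if_neg (hno i k)) (fun f hf => by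
        rw [← hren f, hae]
        refine (hP _ fun h0 => hF0 f hf ?_).2.2 (hnoF ⟨f, hf⟩)
        rw [← hren f, h0, map_zero])
      rw [hm, h1]
      exact ⟨rfl, h2⟩
    · obtain ⟨k, hk⟩ := hex
      have h1 := hu2 i hi (by
        intro h0
        have h2 := congrFun h0 k
        simp only [if_pos hk, Pi.zero_apply] at h2
        exact hm0 h2)
      have h2 : ((∑ k, w i k * ((if p ∣ lp (lift e i (ℓ i k)) then m else 0 : ℕ) : ℚ) : ℚ) : ℝ) =
          m * ∑ k, if p ∣ lp (lift e i (ℓ i k)) then (w i k : ℝ) else 0 := by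
        push_cast
        rw [Finset.mul_sum]
        refine Finset.sum_congr rfl fun k _ => ?_
        split_ifs <;> simp [mul_comm]
      rw [h2] at h1
      rw [hm]
      simp only [if_neg hi]
      push_cast
      linarith
  · -- the places at infinity
    intro i P m hm hP
    have hlo : LiesOver x P m := by
      right
      refine ⟨hm, i, fun f hf => ?_⟩
      rw [← hren f, hae, degI_rename]
      refine hP _ fun h0 => hf ?_
      rw [← hren f, h0, map_zero]
    have hPV := hVL P m hlo
    refine ⟨hPV, fun hi => ?_⟩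
    have hne : ∀ j (φ : Form (n j)), φ ≠ 0 → j ≠ i → P.ord (lf φ (x j)) = P.ord (x j 0) := by
      intro j φ hφ hj
      rw [hval P j φ hφ, hP _ (lp_ne (hlift j φ hφ)), degB_lift_ne e hj]
      simp
    have hnrm : Nrm ℓ x P (fun j => P.ord (x j 0) - (if j = i then (m : ℤ) else 0))
        fun j k => if j = i then (if (∃ s : ℂ, ℓ j k = s • LinearMap.proj 0) then m else 0)
          else 0 := by
      refine ⟨fun j φ => ?_, fun j => ?_, fun j k => ?_⟩
      · by_cases hφ : φ = 0
        · left
          rw [hφ, hlf0]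
        · right
          dsimp only
          by_cases hj : j = i
          · subst hj
            rw [if_pos rfl, hval P j φ hφ, hP _ (lp_ne (hlift j φ hφ))]
            have h1 := degB_lp_le (bk e j) (lift e j φ)
            have h2 : (m : ℤ) * (degB (bk e j) (lp (lift e j φ)) : ℤ) ≤ m * 1 := by
              apply mul_le_mul_of_nonneg_left _ (by positivity)
              exact_mod_cast h1
            linarith
          · rw [if_neg hj, hne j φ hφ hj, sub_zero]
      · dsimp only
        by_cases hj : j = i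
        · subst hj
          refine ⟨LinearMap.proj (⟨0, hn j⟩ : Fin (n j)).succ, ?_, ?_⟩
          · refine lfs_ne hx0 hbas j ?_
            intro h0
            have h1 := LinearMap.congr_fun h0 (Pi.single (⟨0, hn j⟩ : Fin (n j)).succ 1)
            simp at h1
          · have h0 : (LinearMap.proj (⟨0, hn j⟩ : Fin (n j)).succ : Form (n j)) ≠ 0 := by
              intro h0
              have h1 := LinearMap.congr_fun h0 (Pi.single (⟨0, hn j⟩ : Fin (n j)).succ 1)
              simp at h1
            have h1 : ¬ ∃ s : ℂ, (LinearMap.proj (⟨0, hn j⟩ : Fin (n j)).succ : Form (n j)) =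
                s • LinearMap.proj 0 := by
              rintro ⟨s, hs⟩
              have h1 := LinearMap.congr_fun hs (Pi.single (⟨0, hn j⟩ : Fin (n j)).succ 1)
              simp at h1
            rw [if_pos rfl, hval P j _ h0, hP _ (lp_ne (hlift j _ h0)), degB_lift_one e h1]
            push_cast
            ring
        · refine ⟨LinearMap.proj 0, ?_, ?_⟩
          · rw [hproj]
            exact hx0 j
          · rw [hproj, if_neg hj, sub_zero]
      · dsimp only
        by_cases hj : j = i
        · subst hj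
          rw [if_pos rfl, if_pos rfl, hval P j _ (hℓ j k), hP _ (lp_ne (hlift j _ (hℓ j k)))]
          by_cases hs : ∃ s : ℂ, ℓ j k = s • LinearMap.proj 0
          · rw [if_pos hs, degB_lift_zero e hs]
            push_cast
            ring
          · rw [if_neg hs, degB_lift_one e hs]
            push_cast
            ring
        · rw [if_neg hj, if_neg hj, hne j _ (hℓ j k) hj]
          simp
    obtain ⟨hu1, hu2⟩ := hup P m hlo _ _ hnrm
    simp only [if_neg hi]
    by_cases hex : ∃ k, ∃ s : ℂ, ℓ i k = s • LinearMap.proj 0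
    · obtain ⟨k, hk⟩ := hex
      have h1 := hu2 i hi (by
        intro h0
        have h2 := congrFun h0 k
        simp only [if_pos hk, if_true, Pi.zero_apply] at h2
        omega)
      have h2 : ((∑ k, w i k * ((if i = i then (if (∃ s : ℂ, ℓ i k = s • LinearMap.proj 0) then m
          else 0) else 0 : ℕ) : ℚ) : ℚ) : ℝ) =
          m * ∑ k, if (∃ s : ℂ, ℓ i k = s • LinearMap.proj 0) then (w i k : ℝ) else 0 := by
        push_cast
        rw [Finset.mul_sum]
        refine Finset.sum_congr rfl fun k _ => ?_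
        rw [if_pos rfl]
        split_ifs <;> simp [mul_comm]
      rw [h2] at h1
      linarith
    · push Not at hex
      obtain ⟨h1, h2⟩ := hu1 (fun j => by
        funext k
        by_cases hj : j = i
        · subst hj
          simp only [if_true]
          rw [if_neg]
          · rfl
          · rintro ⟨s, hs⟩
            exact hex k s hs
        · simp only [if_neg hj]
          rfl) (fun f hf => by
        rw [← hren f, hae, hP _ fun h0 => hF0 f hf (by rw [← hren f, h0, map_zero]),
          ← degI_rename, hren, hF f hf i hi]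
        simp)
      have h3 : (∑ k, if (∃ s : ℂ, ℓ i k = s • LinearMap.proj 0) then (w i k : ℝ) else 0) = 0 := by
        refine Finset.sum_eq_zero fun k _ => ?_
        rw [if_neg]
        rintro ⟨s, hs⟩
        exact hex k s hs
      rw [h3, h1]
      push_cast
      linarith


end

end Pool.Agent.X324.PA
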